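import Mathlib

/-!
# Shifted geometric grids of ratio two, with the exact average of the value function
-/

set_option autoImplicit false

namespace Pool.Agent.Helper55.SX

/-- the value function -/
private noncomputable def ff (k x : ℝ) : ℝ := min x ((k - (k - 1) * x) / 2)

/-- the sum over a period -/
private theorem sum_ff {k : ℕ} (hk : 1 ≤ k) {J : ℕ} {q : ℝ} (hq1 : 1 < q)
    (hqJ : q ^ J = 2) :
    (k : ℝ) / 2 * (J * Real.logb 2 (1 + 1 / (k : ℝ)) - 1) ≤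
      ∑ r ∈ Finset.range J, ff k (1 / q ^ r) := by
  classical
  have hkR : (1 : ℝ) ≤ k := by exact_mod_cast hk
  have hk0 : (0 : ℝ) < k := by linarith
  have hq0 : 0 < q := by linarith
  have hone : 1 + 1 / (k : ℝ) ≤ 2 := by
    have : 1 / (k : ℝ) ≤ 1 := by rw [div_le_one hk0]; exact hkR
    linarith
  have hgt : 1 < 1 + 1 / (k : ℝ) := by
    have : 0 < 1 / (k : ℝ) := by positivity
    linarith
  have hex : ∃ r, 1 + 1 / (k : ℝ) ≤ q ^ r := ⟨J, by rw [hqJ]; exact hone⟩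
  obtain ⟨R, hRdef⟩ : ∃ R, R = Nat.find hex := ⟨_, rfl⟩
  have hR1 : 1 + 1 / (k : ℝ) ≤ q ^ R := by rw [hRdef]; exact Nat.find_spec hex
  have hR2 : ∀ r < R, q ^ r < 1 + 1 / (k : ℝ) := by
    intro r hr
    rw [hRdef] at hr
    exact not_le.1 (Nat.find_min hex hr)
  have hRJ : R ≤ J := by
    rw [hRdef]
    exact Nat.find_min' hex (by rw [hqJ]; exact hone)
  have hRpos : 0 < R := by
    rcases Nat.eq_zero_or_pos R with h | h
    · rw [h, pow_zero] at hR1
      linarith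
    · exact h
  -- the geometric sums
  obtain ⟨a, ha⟩ : ∃ a : ℝ, a = 1 / q := ⟨_, rfl⟩
  have ha0 : 0 < a := by rw [ha]; positivity
  have ha1 : a < 1 := by rw [ha, div_lt_one hq0]; exact hq1
  have hpow : ∀ r : ℕ, 1 / q ^ r = a ^ r := by
    intro r
    rw [ha, one_div_pow]
  have haJ : a ^ J = 1 / 2 := by rw [← hpow, hqJ]
  have hG : ∀ n : ℕ, (1 - a) * ∑ i ∈ Finset.range n, a ^ i = 1 - a ^ n := fun n =>
    mul_neg_geom_sum a n
  obtain ⟨m, hm⟩ := Nat.exists_eq_add_of_le hRJ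
  have hsplit : ∑ r ∈ Finset.range J, ff k (1 / q ^ r) =
      ∑ r ∈ Finset.range R, ff k (a ^ r) + ∑ i ∈ Finset.range m, ff k (a ^ (R + i)) := by
    rw [hm, Finset.sum_range_add]
    simp only [hpow]
  have h1 : ∑ r ∈ Finset.range R, ((k : ℝ) - (k - 1) * a ^ r) / 2 ≤
      ∑ r ∈ Finset.range R, ff k (a ^ r) := by
    refine Finset.sum_le_sum fun r hr => ?_
    have h2 := hR2 r (Finset.mem_range.1 hr)
    rw [ff, le_min_iff]
    refine ⟨?_, le_rfl⟩
    have h3 : q ^ r * a ^ r = 1 := by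
      rw [← hpow]
      field_simp
    have h4 : 0 < a ^ r := by positivity
    have h5 : 1 < (1 + 1 / (k : ℝ)) * a ^ r :=
      lt_of_eq_of_lt h3.symm (mul_lt_mul_of_pos_right h2 h4)
    have h6 : (k : ℝ) < (k + 1) * a ^ r := by
      have h7 : (k : ℝ) * ((1 + 1 / (k : ℝ)) * a ^ r) = (k + 1) * a ^ r := by
        field_simp
      have h8 := mul_lt_mul_of_pos_left h5 hk0
      rw [h7] at h8
      linarith
    linarith
  have h2 : ∑ i ∈ Finset.range m, a ^ (R + i) ≤ ∑ i ∈ Finset.range m, ff k (a ^ (R + i)) := by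
    refine Finset.sum_le_sum fun i _ => ?_
    rw [ff, le_min_iff]
    refine ⟨le_rfl, ?_⟩
    have h3 : q ^ (R + i) * a ^ (R + i) = 1 := by
      rw [← hpow]
      field_simp
    have h4 : 0 < a ^ (R + i) := by positivity
    have h5 : 1 + 1 / (k : ℝ) ≤ q ^ (R + i) :=
      hR1.trans (pow_le_pow_right₀ hq1.le (Nat.le_add_right R i))
    have h6 : (1 + 1 / (k : ℝ)) * a ^ (R + i) ≤ 1 :=
      (mul_le_mul_of_nonneg_right h5 h4.le).trans_eq h3
    have h7 : (k : ℝ) * ((1 + 1 / (k : ℝ)) * a ^ (R + i)) = (k + 1) * a ^ (R + i) := by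
      field_simp
    have h8 := mul_le_mul_of_nonneg_left h6 hk0.le
    rw [h7] at h8
    linarith
  have h3 : ∑ r ∈ Finset.range R, ((k : ℝ) - (k - 1) * a ^ r) / 2 =
      R * ((k : ℝ) / 2) - ((k - 1) / 2) * ∑ r ∈ Finset.range R, a ^ r := by
    have h4 : ∀ r ∈ Finset.range R, ((k : ℝ) - (k - 1) * a ^ r) / 2 =
        (k : ℝ) / 2 - ((k - 1) / 2) * a ^ r := fun r _ => by ring
    rw [Finset.sum_congr rfl h4, Finset.sum_sub_distrib, Finset.sum_const, Finset.card_range,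
      nsmul_eq_mul, Finset.mul_sum]
  have h4 : ∑ i ∈ Finset.range m, a ^ (R + i) = a ^ R * ∑ i ∈ Finset.range m, a ^ i := by
    rw [Finset.mul_sum]
    exact Finset.sum_congr rfl fun i _ => by rw [pow_add]
  have h5 := hG R
  have h6 := hG m
  have h7 : a ^ R * a ^ m = 1 / 2 := by rw [← pow_add, ← hm, haJ]
  -- the last power below the threshold
  have h8 : (k : ℝ) * a ≤ (k + 1) * a ^ R := by
    obtain ⟨R', hR'⟩ := Nat.exists_eq_succ_of_ne_zero hRpos.ne'
    have h9 := hR2 R' (by omega)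
    have h10 : q ^ R' * a ^ R' = 1 := by
      rw [← hpow]
      field_simp
    have h11 : 0 < a ^ R' := by positivity
    have h12 : 1 < (1 + 1 / (k : ℝ)) * a ^ R' :=
      lt_of_eq_of_lt h10.symm (mul_lt_mul_of_pos_right h9 h11)
    have h13 : (k : ℝ) * ((1 + 1 / (k : ℝ)) * a ^ R') = (k + 1) * a ^ R' := by
      field_simp
    have h14 := mul_lt_mul_of_pos_left h12 hk0
    rw [h13] at h14
    rw [hR', Nat.succ_eq_add_one, pow_succ]
    have h15 : (k : ℝ) * a ≤ (k + 1) * a ^ R' * a := by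
      refine mul_le_mul_of_nonneg_right ?_ ha0.le
      linarith
    linarith
  have h9 : (k : ℝ) / 2 * ((R : ℝ) - 1) ≤ ∑ r ∈ Finset.range J, ff k (1 / q ^ r) := by
    rw [hsplit]
    refine le_trans ?_ (add_le_add h1 h2)
    rw [h3, h4]
    set G1 := ∑ r ∈ Finset.range R, a ^ r with hG1
    set G2 := ∑ i ∈ Finset.range m, a ^ i with hG2
    have h10 : 0 < 1 - a := by linarith
    refine le_of_mul_le_mul_left ?_ h10
    have h11 : (1 - a) * (R * ((k : ℝ) / 2) - (k - 1) / 2 * G1 + a ^ R * G2) =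
        (1 - a) * (R * ((k : ℝ) / 2)) - (k - 1) / 2 * ((1 - a) * G1) +
          a ^ R * ((1 - a) * G2) := by ring
    rw [h11, h5, h6]
    have h12 : a ^ R * (1 - a ^ m) = a ^ R - 1 / 2 := by rw [mul_sub, h7, mul_one]
    rw [h12]
    nlinarith
  have h10 : (J : ℝ) * Real.logb 2 (1 + 1 / (k : ℝ)) ≤ R := by
    have h11 : Real.logb 2 (1 + 1 / (k : ℝ)) ≤ Real.logb 2 (q ^ R) :=
      Real.logb_le_logb_of_le (by norm_num) (by linarith) hR1
    have h12 : Real.logb 2 (q ^ R) = R * Real.logb 2 q := by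
      rw [Real.logb_pow]
    have h13 : (J : ℝ) * Real.logb 2 q = 1 := by
      rw [← Real.logb_pow, hqJ, Real.logb_self_eq_one (by norm_num)]
    have h14 : (0 : ℝ) ≤ J := Nat.cast_nonneg _
    calc (J : ℝ) * Real.logb 2 (1 + 1 / (k : ℝ)) ≤ J * (R * Real.logb 2 q) := by
          rw [← h12]
          exact mul_le_mul_of_nonneg_left h11 h14
      _ = R * (J * Real.logb 2 q) := by ring
      _ = R := by rw [h13, mul_one]
  refine le_trans ?_ h9
  refine mul_le_mul_of_nonneg_left ?_ (by positivity)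
  linarith

/-- the grid values -/
private noncomputable def vv (s q : ℝ) (J N0 σ i : ℕ) : ℝ :=
  s * q ^ (σ + J * N0) / q ^ (J * i)

private theorem vv_pos {s q : ℝ} (hs : 0 < s) (hq : 0 < q) (J N0 σ i : ℕ) :
    0 < vv s q J N0 σ i := by
  unfold vv
  positivity

private theorem vv_half {s q : ℝ} (hs : 0 < s) (hq : 1 < q) {J : ℕ} (hqJ : q ^ J = 2) (N0 σ : ℕ)
    {i j : ℕ} (hij : i < j) : 2 * vv s q J N0 σ j ≤ vv s q J N0 σ i := by
  have hq0 : 0 < q := by linarith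
  unfold vv
  rw [le_div_iff₀ (by positivity)]
  have h1 : q ^ (J * j) = q ^ (J * i) * (q ^ J) ^ (j - i) := by
    rw [← pow_mul, ← pow_add, ← Nat.mul_add]
    congr 2
    omega
  have h2 : (2 : ℝ) ≤ (q ^ J) ^ (j - i) := by
    rw [hqJ]
    calc (2 : ℝ) = 2 ^ 1 := (pow_one _).symm
      _ ≤ 2 ^ (j - i) := pow_le_pow_right₀ (by norm_num) (by omega)
  rw [h1]
  have h3 : 2 * (s * q ^ (σ + J * N0) / (q ^ (J * i) * (q ^ J) ^ (j - i))) * q ^ (J * i) =
      s * q ^ (σ + J * N0) * (2 / (q ^ J) ^ (j - i)) := by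
    field_simp
  rw [h3]
  have h4 : 2 / (q ^ J) ^ (j - i) ≤ 1 := by
    rw [div_le_one (by positivity)]
    exact h2
  calc s * q ^ (σ + J * N0) * (2 / (q ^ J) ^ (j - i)) ≤ s * q ^ (σ + J * N0) * 1 :=
        mul_le_mul_of_nonneg_left h4 (by positivity)
    _ = s * q ^ (σ + J * N0) := mul_one _

/-- the value reached -/
private theorem vv_hit {s q : ℝ} (hq : 0 < q) {J : ℕ} [NeZero J] (N0 : ℕ) (σ : Fin J) {n : ℕ}
    (hn : n ≤ J * N0) :
    ∃ i, vv s q J N0 σ i = s * q ^ n * (1 / q ^ ((Fin.ofNat J n - σ : Fin J) : ℕ)) := by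
  have hr : (((Fin.ofNat J n - σ : Fin J) : ℕ)) = (J - (σ : ℕ) + n % J) % J := by
    rw [Fin.sub_def]
    simp [Fin.ofNat]
  have hσ : (σ : ℕ) < J := σ.2
  obtain ⟨r, hrdef⟩ : ∃ r : ℕ, r = ((Fin.ofNat J n - σ : Fin J) : ℕ) := ⟨_, rfl⟩
  rw [← hrdef] at hr ⊢
  -- `σ + r` is congruent to `n` modulo `J`
  have hmod : ((σ : ℕ) + r) % J = n % J := by
    rw [hr, Nat.add_mod_mod]
    have h1 : (σ : ℕ) + (J - (σ : ℕ) + n % J) = n % J + J := by omega
    rw [h1, Nat.add_mod_right, Nat.mod_mod]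
  have hdvd : J ∣ ((σ : ℕ) + J * N0 + r - n) := by
    have h1 : (σ : ℕ) + J * N0 + r = ((σ : ℕ) + r) + J * N0 := by ring
    have h2 : ((σ : ℕ) + J * N0 + r) % J = n % J := by
      rw [h1, Nat.add_mul_mod_self_left, hmod]
    exact (Nat.modEq_iff_dvd' (by omega)).1 h2.symm
  obtain ⟨i, hi⟩ := hdvd
  refine ⟨i, ?_⟩
  have h1 : J * i + n = (σ : ℕ) + J * N0 + r := by omega
  unfold vv
  have h2 : q ^ (J * i) * q ^ n = q ^ ((σ : ℕ) + J * N0) * q ^ r := by
    rw [← pow_add, ← pow_add, h1]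
  rw [div_eq_iff (by positivity)]
  have h3 : s * q ^ n * (1 / q ^ r) * q ^ (J * i) =
      s * (1 / q ^ r) * (q ^ (J * i) * q ^ n) := by ring
  rw [h3, h2]
  field_simp

/-- Shifted grids of ratio two; the exact average of the value function. -/
theorem gridsX' (k : ℕ) (hk : 1 ≤ k) {lam : ℝ} (hlam0 : 0 ≤ lam)
    (hlam : lam < Real.logb 2 (1 + 1 / (k : ℝ))) : ∃ J : ℕ, 0 < J ∧
    ∀ {E : Type} [Fintype E] [DecidableEq E] (w : E → ℝ) (A : Finset E) {s Γ : ℝ}
      (_ : 0 < s) (_ : ∀ e ∈ A, s ≤ w e ∧ w e ≤ Γ * s),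
      ∃ (cls : Fin J → E → ℕ) (b : Fin J → ℕ → ℝ),
        (∀ t i, 0 < b t i) ∧ (∀ t i j, i < j → 2 * b t j ≤ b t i) ∧
        (∀ t, ∀ e ∈ A, b t (cls t e) ≤ w e ∧ w e ≤ 2 * b t (cls t e)) ∧
        ∀ e ∈ A, (J : ℝ) * ((k : ℝ) / 2 * lam) * w e ≤
          ∑ t, min (b t (cls t e)) ((k : ℝ) / 2 * w e - ((k : ℝ) - 1) / 2 * b t (cls t e)) := by
  classical
  have hkR : (1 : ℝ) ≤ k := by exact_mod_cast hk
  have hk0 : (0 : ℝ) < k := by linarith
  obtain ⟨L, hL⟩ : ∃ L : ℝ, L = Real.logb 2 (1 + 1 / (k : ℝ)) := ⟨_, rfl⟩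
  have hL1 : L ≤ 1 := by
    rw [hL]
    have h1 : 1 / (k : ℝ) ≤ 1 := by rw [div_le_one hk0]; exact hkR
    have h2 : 0 < 1 / (k : ℝ) := by positivity
    calc Real.logb 2 (1 + 1 / (k : ℝ)) ≤ Real.logb 2 2 :=
          Real.logb_le_logb_of_le (by norm_num) (by linarith) (by linarith)
      _ = 1 := Real.logb_self_eq_one (by norm_num)
  rw [← hL] at hlam
  obtain ⟨J0, hJ0⟩ := exists_nat_gt (2 / (L - lam))
  obtain ⟨J, hJ⟩ : ∃ J : ℕ, J = J0 + 1 := ⟨_, rfl⟩
  have hJpos : 0 < J := by omega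
  have hJR : (0 : ℝ) < J := by exact_mod_cast hJpos
  have hJL : 2 ≤ J * (L - lam) := by
    have h1 : 0 < L - lam := by linarith
    rw [div_lt_iff₀ h1] at hJ0
    have h2 : (J : ℝ) = J0 + 1 := by rw [hJ]; push_cast; ring
    rw [h2]
    nlinarith
  have : NeZero J := ⟨by omega⟩
  -- the ratio
  obtain ⟨q, hq⟩ : ∃ q : ℝ, q = (2 : ℝ) ^ (1 / (J : ℝ)) := ⟨_, rfl⟩
  have hqJ : q ^ J = 2 := by
    rw [hq, ← Real.rpow_natCast, ← Real.rpow_mul (by norm_num), one_div_mul_cancel hJR.ne',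
      Real.rpow_one]
  have hq1 : 1 < q := by
    rw [hq]
    exact Real.one_lt_rpow (by norm_num) (by positivity)
  have hq0 : 0 < q := by linarith
  have hqle : q ≤ 1 + 1 / (J : ℝ) := by
    have h1 : (2 : ℝ) ≤ (1 + 1 / (J : ℝ)) ^ J := by
      have h2 := one_add_mul_le_pow (show (-2 : ℝ) ≤ 1 / (J : ℝ) by
        have : 0 < 1 / (J : ℝ) := by positivity
        linarith) J
      have h3 : (J : ℝ) * (1 / (J : ℝ)) = 1 := by field_simp
      linarith
    rw [← hqJ] at h1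
    exact le_of_pow_le_pow_left₀ (by omega) (by positivity) h1
  refine ⟨J, hJpos, ?_⟩
  intro E _ _ w A s Γ hs hA
  obtain ⟨N0, hN0⟩ := pow_unbounded_of_one_lt Γ hq1
  set b : Fin J → ℕ → ℝ := fun t i => vv s q J N0 t i with hb
  set cls : Fin J → E → ℕ := fun t e => if h : ∃ i, b t i ≤ w e then Nat.find h else 0 with hcls
  have hbhalf : ∀ (t : Fin J) (i j : ℕ), i < j → 2 * b t j ≤ b t i := fun t i j hij =>
    vv_half hs hq1 hqJ N0 t hij
  have hbpos : ∀ (t : Fin J) (i : ℕ), 0 < b t i := fun t i => vv_pos hs hq0 J N0 t i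
  -- the level of a weight
  have hlev : ∀ e ∈ A, ∃ n : ℕ, n ≤ J * N0 ∧ s * q ^ n ≤ w e ∧ w e < s * q ^ (n + 1) := by
    intro e he
    obtain ⟨h1, h2⟩ := hA e he
    have h3 : 1 ≤ w e / s := by rw [le_div_iff₀ hs]; linarith
    obtain ⟨n, hn1, hn2⟩ := exists_nat_pow_near h3 hq1
    rw [le_div_iff₀ hs] at hn1
    rw [div_lt_iff₀ hs] at hn2
    refine ⟨n, ?_, by linarith, by linarith⟩
    have h4 : q ^ n < q ^ N0 := by
      have h5 : q ^ n * s < q ^ N0 * s := by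
        calc q ^ n * s ≤ w e := hn1
          _ ≤ Γ * s := h2
          _ < q ^ N0 * s := mul_lt_mul_of_pos_right hN0 hs
      exact lt_of_mul_lt_mul_right h5 hs.le
    have h6 : n < N0 := (pow_lt_pow_iff_right₀ hq1).1 h4
    have h7 : N0 ≤ J * N0 := Nat.le_mul_of_pos_left N0 hJpos
    omega
  have heq : ∀ e ∈ A, ∀ n : ℕ, n ≤ J * N0 → s * q ^ n ≤ w e → w e < s * q ^ (n + 1) →
      ∀ t : Fin J, b t (cls t e) = s * q ^ n * (1 / q ^ ((Fin.ofNat J n - t : Fin J) : ℕ)) := by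
    intro e he n hn1 hn2 hn3 t
    obtain ⟨i0, hi0⟩ := vv_hit (s := s) hq0 N0 t hn1
    obtain ⟨r, hr⟩ : ∃ r : ℕ, r = ((Fin.ofNat J n - t : Fin J) : ℕ) := ⟨_, rfl⟩
    have hrJ : r < J := by rw [hr]; exact (Fin.ofNat J n - t : Fin J).2
    rw [← hr] at hi0 ⊢
    have h1 : b t i0 ≤ w e := by
      show vv s q J N0 t i0 ≤ w e
      rw [hi0]
      refine le_trans ?_ hn2
      have h2 : 1 / q ^ r ≤ 1 := by
        rw [div_le_one (by positivity)]
        exact one_le_pow₀ hq1.le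
      calc s * q ^ n * (1 / q ^ r) ≤ s * q ^ n * 1 :=
            mul_le_mul_of_nonneg_left h2 (by positivity)
        _ = s * q ^ n := mul_one _
    have hex : ∃ i, b t i ≤ w e := ⟨i0, h1⟩
    have hc : cls t e = Nat.find hex := by
      simp only [hcls]
      rw [dif_pos hex]
    have hle : Nat.find hex ≤ i0 := Nat.find_min' hex h1
    have hfind : Nat.find hex = i0 := by
      rcases hle.eq_or_lt with h | h
      · exact h
      · exfalso
        have h2 := hbhalf t _ _ h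
        have h3 := Nat.find_spec hex
        have h4 : 2 * b t i0 ≤ w e := h2.trans h3
        have h5 : b t i0 = s * q ^ n * (1 / q ^ r) := hi0
        rw [h5, ← hqJ] at h4
        have h6 : s * q ^ (n + 1) ≤ q ^ J * (s * q ^ n * (1 / q ^ r)) := by
          have h7 : q ^ J = q ^ r * q ^ (J - r) := by
            rw [← pow_add]
            congr 1
            omega
          have h8 : q ^ J * (s * q ^ n * (1 / q ^ r)) = s * q ^ n * q ^ (J - r) := by
            rw [h7]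
            field_simp
          rw [h8, pow_succ, ← mul_assoc]
          refine mul_le_mul_of_nonneg_left ?_ (by positivity)
          calc q = q ^ 1 := (pow_one q).symm
            _ ≤ q ^ (J - r) := pow_le_pow_right₀ hq1.le (by omega)
        linarith
    rw [hc, hfind]
    exact hi0
  refine ⟨cls, b, hbpos, hbhalf, ?_, ?_⟩
  · intro t e he
    obtain ⟨n, hn1, hn2, hn3⟩ := hlev e he
    rw [heq e he n hn1 hn2 hn3 t]
    obtain ⟨r, hr⟩ : ∃ r : ℕ, r = ((Fin.ofNat J n - t : Fin J) : ℕ) := ⟨_, rfl⟩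
    have hrJ : r < J := by rw [hr]; exact (Fin.ofNat J n - t : Fin J).2
    rw [← hr]
    constructor
    · refine le_trans ?_ hn2
      have h2 : 1 / q ^ r ≤ 1 := by
        rw [div_le_one (by positivity)]
        exact one_le_pow₀ hq1.le
      calc s * q ^ n * (1 / q ^ r) ≤ s * q ^ n * 1 :=
            mul_le_mul_of_nonneg_left h2 (by positivity)
        _ = s * q ^ n := mul_one _
    · have h6 : s * q ^ (n + 1) ≤ q ^ J * (s * q ^ n * (1 / q ^ r)) := by
        have h7 : q ^ J = q ^ r * q ^ (J - r) := by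
          rw [← pow_add]
          congr 1
          omega
        have h8 : q ^ J * (s * q ^ n * (1 / q ^ r)) = s * q ^ n * q ^ (J - r) := by
          rw [h7]
          field_simp
        rw [h8, pow_succ, ← mul_assoc]
        refine mul_le_mul_of_nonneg_left ?_ (by positivity)
        calc q = q ^ 1 := (pow_one q).symm
          _ ≤ q ^ (J - r) := pow_le_pow_right₀ hq1.le (by omega)
      rw [hqJ] at h6
      linarith
  · intro e he
    obtain ⟨n, hn1, hn2, hn3⟩ := hlev e he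
    have hsq : 0 < s * q ^ n := by positivity
    have h1 : ∑ t : Fin J, s * q ^ n * ff k (1 / q ^ ((Fin.ofNat J n - t : Fin J) : ℕ)) ≤
        ∑ t, min (b t (cls t e)) ((k : ℝ) / 2 * w e - ((k : ℝ) - 1) / 2 * b t (cls t e)) := by
      refine Finset.sum_le_sum fun t _ => ?_
      rw [heq e he n hn1 hn2 hn3 t]
      obtain ⟨x, hx⟩ : ∃ x : ℝ, x = 1 / q ^ ((Fin.ofNat J n - t : Fin J) : ℕ) := ⟨_, rfl⟩
      rw [← hx]
      rw [le_min_iff]
      constructor
      · exact mul_le_mul_of_nonneg_left (min_le_left _ _) hsq.le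
      · have h2 : s * q ^ n * ff k x ≤ s * q ^ n * (((k : ℝ) - (k - 1) * x) / 2) :=
          mul_le_mul_of_nonneg_left (min_le_right _ _) hsq.le
        have h3 : (k : ℝ) / 2 * (s * q ^ n) ≤ (k : ℝ) / 2 * w e :=
          mul_le_mul_of_nonneg_left hn2 (by positivity)
        refine h2.trans ?_
        have h4 : s * q ^ n * (((k : ℝ) - (k - 1) * x) / 2) =
          (k : ℝ) / 2 * (s * q ^ n) - ((k : ℝ) - 1) / 2 * (s * q ^ n * x) := by ring
        rw [h4]
        linarith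
    refine le_trans ?_ h1
    rw [← Finset.mul_sum]
    have h2 : ∑ t : Fin J, ff k (1 / q ^ ((Fin.ofNat J n - t : Fin J) : ℕ)) =
        ∑ r : Fin J, ff k (1 / q ^ (r : ℕ)) :=
      Equiv.sum_comp (Equiv.subLeft (Fin.ofNat J n)) (fun r : Fin J => ff k (1 / q ^ (r : ℕ)))
    rw [h2, Fin.sum_univ_eq_sum_range (fun r => ff (k : ℝ) (1 / q ^ r)) J]
    have h3 := mul_le_mul_of_nonneg_left (sum_ff hk hq1 hqJ) hsq.le
    refine le_trans ?_ h3
    rw [← hL]
    -- `w < q s q^n`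
    have h4 : w e ≤ q * (s * q ^ n) := by
      rw [pow_succ] at hn3
      linarith
    have h5 : (J : ℝ) * ((k : ℝ) / 2 * lam) * w e ≤
        (J : ℝ) * ((k : ℝ) / 2 * lam) * (q * (s * q ^ n)) :=
      mul_le_mul_of_nonneg_left h4 (by positivity)
    refine h5.trans ?_
    have h6 : (J : ℝ) * lam * q ≤ J * L - 1 := by
      have h7 : (J : ℝ) * lam * q ≤ J * lam * (1 + 1 / (J : ℝ)) :=
        mul_le_mul_of_nonneg_left hqle (by positivity)
      have h8 : (J : ℝ) * lam * (1 + 1 / (J : ℝ)) = J * lam + lam := by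
        field_simp
      rw [h8] at h7
      nlinarith
    have h9 : (J : ℝ) * ((k : ℝ) / 2 * lam) * (q * (s * q ^ n)) =
        s * q ^ n * ((k : ℝ) / 2 * (J * lam * q)) := by ring
    rw [h9]
    refine mul_le_mul_of_nonneg_left ?_ hsq.le
    exact mul_le_mul_of_nonneg_left h6 (by positivity)

/-- F6', form with a set `A`. -/
theorem gridsX (k : ℕ) (hk : 1 ≤ k) {lam : ℝ} (hlam0 : 0 ≤ lam)
    (hlam : lam < Real.logb 2 (1 + 1 / (k : ℝ))) : ∃ J : ℕ, 0 < J ∧
    ∀ {E : Type} [Fintype E] [DecidableEq E] (w : E → ℝ) (A : Finset E) {s Γ : ℝ}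
      (_ : 0 < s) (_ : ∀ e ∈ A, s ≤ w e ∧ w e ≤ Γ * s),
      ∃ (cls : Fin J → E → ℕ) (b : Fin J → ℕ → ℝ),
        (∀ t i, 0 < b t i) ∧ (∀ t i j, i < j → 2 * b t j ≤ b t i) ∧
        (∀ t, ∀ e ∈ A, b t (cls t e) ≤ w e) ∧
        ∀ e ∈ A, (J : ℝ) * ((k : ℝ) / 2 * lam) * w e ≤
          ∑ t, min (b t (cls t e)) ((k : ℝ) / 2 * w e - ((k : ℝ) - 1) / 2 * b t (cls t e)) := by
  obtain ⟨J, hJ, h⟩ := gridsX' k hk hlam0 hlam
  refine ⟨J, hJ, fun {E} _ _ w A {s Γ} hs hA => ?_⟩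
  obtain ⟨cls, b, h1, h2, h3, h4⟩ := h w A hs hA
  exact ⟨cls, b, h1, h2, fun t e he => (h3 t e he).1, h4⟩

/-- F6', the form of the skeleton `sw2_Skel`. `J` depends on `k` and `lam` only. -/
theorem grids_x {k : ℕ} (hk : 1 ≤ k) {lam : ℝ} (hlam : lam < Real.logb 2 (1 + 1 / (k : ℝ))) :
    ∃ J : ℕ, 0 < J ∧ ∀ {E : Type} [Fintype E] [DecidableEq E] (w : E → ℝ) {s Γ : ℝ}, 0 < s →
      (∀ e, s ≤ w e ∧ w e ≤ Γ * s) →
      ∃ (cls : Fin J → E → ℕ) (D : Fin J → ℕ → ℝ),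
        (∀ σ i, 0 ≤ D σ i) ∧ (∀ σ i j, i < j → 2 * D σ j ≤ D σ i) ∧
        (∀ σ e, D σ (cls σ e) ≤ w e ∧ w e ≤ 2 * D σ (cls σ e)) ∧
        ∀ e, (J : ℝ) * (((k : ℝ) / 2) * lam) * w e ≤
          ∑ σ, min (D σ (cls σ e)) (((k : ℝ) / 2) * w e - (((k : ℝ) - 1) / 2) * D σ (cls σ e)) := by
  have hkR : (1 : ℝ) ≤ k := by exact_mod_cast hk
  have hL : 0 < Real.logb 2 (1 + 1 / (k : ℝ)) := by
    refine Real.logb_pos (by norm_num) ?_
    have : 0 < 1 / (k : ℝ) := by positivity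
    linarith
  obtain ⟨J, hJ, h⟩ := gridsX' k hk (le_max_right lam 0) (max_lt hlam hL)
  refine ⟨J, hJ, fun {E} _ _ w {s Γ} hs hA => ?_⟩
  obtain ⟨cls, b, h1, h2, h3, h4⟩ := h w Finset.univ hs (fun e _ => hA e)
  refine ⟨cls, b, fun t i => (h1 t i).le, h2, fun t e => h3 t e (Finset.mem_univ e), fun e => ?_⟩
  refine le_trans ?_ (h4 e (Finset.mem_univ e))
  have hw : 0 < w e := lt_of_lt_of_le hs (hA e).1
  refine mul_le_mul_of_nonneg_right ?_ hw.le
  refine mul_le_mul_of_nonneg_left ?_ (Nat.cast_nonneg _)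
  exact mul_le_mul_of_nonneg_left (le_max_left lam 0) (by positivity)

end Pool.Agent.Helper55.SX
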